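import Pool.Agent.W2helper18.BM.Nu

set_option autoImplicit false
open MeasureTheory Filter Topology Metric Real

namespace Pool.Agent.W2helper18.BM

/-- dyadic roots of unity are dense in the unit circle -/
lemma exists_root_near {z : ℂ} (hz : ‖z‖ = 1) {r : ℝ} (hr : 0 < r) :
    ∃ (j : ℕ) (ω : ℂ), ω ^ (2 ^ j) = 1 ∧ ω ∈ ball z r := by
  obtain ⟨j, hj⟩ := exists_pow_lt_of_lt_one (show 0 < r / (2 * π) by positivity)
    (show (1 / 2 : ℝ) < 1 by norm_num)
  set t : ℝ := Complex.arg z / (2 * π) * 2 ^ j with ht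
  set ω : ℂ := Complex.exp (((2 * π * (⌊t⌋ : ℝ) / 2 ^ j : ℝ) : ℂ) * Complex.I) with hω
  refine ⟨j, ω, ?_, ?_⟩
  · rw [hω, ← Complex.exp_nat_mul]
    have h1 : ((2 ^ j : ℕ) : ℂ) * (((2 * π * (⌊t⌋ : ℝ) / 2 ^ j : ℝ) : ℂ) * Complex.I) =
        ((⌊t⌋ : ℤ) : ℂ) * (2 * π * Complex.I) := by
      push_cast
      field_simp
    rw [h1]
    exact Complex.exp_int_mul_two_pi_mul_I _
  · rw [mem_ball, dist_eq_norm]
    have h2 := Complex.norm_mul_exp_arg_mul_I z
    rw [hz, Complex.ofReal_one, one_mul] at h2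
    set a : ℝ := 2 * π * (⌊t⌋ : ℝ) / 2 ^ j with ha
    have h3 : ‖ω - z‖ ≤ |a - Complex.arg z| := by
      have e1 : ω - z = Complex.exp (Complex.arg z * Complex.I) *
          (Complex.exp (((a - Complex.arg z : ℝ) : ℂ) * Complex.I) - 1) := by
        rw [mul_sub, ← Complex.exp_add, mul_one, h2, hω]
        congr 2
        push_cast
        ring
      rw [e1, norm_mul, Complex.norm_exp_ofReal_mul_I, one_mul, mul_comm _ Complex.I]
      exact Real.norm_exp_I_mul_ofReal_sub_one_le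
    refine lt_of_le_of_lt h3 ?_
    have h4 : |a - Complex.arg z| ≤ 2 * π * (1 / 2) ^ j := by
      have e2 : Complex.arg z = 2 * π * t / 2 ^ j := by
        rw [ht]; field_simp
      have e3 : a - Complex.arg z = 2 * π * (1 / 2) ^ j * ((⌊t⌋ : ℝ) - t) := by
        rw [e2, ha, one_div, inv_pow]
        field_simp
      rw [e3, abs_mul, abs_of_pos (by positivity)]
      have e4 : |(⌊t⌋ : ℝ) - t| ≤ 1 := by
        rw [abs_le]
        constructor
        · linarith [Int.sub_one_lt_floor t]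
        · linarith [Int.floor_le t]
      calc 2 * π * (1 / 2) ^ j * |(⌊t⌋ : ℝ) - t| ≤ 2 * π * (1 / 2) ^ j * 1 := by gcongr
        _ = _ := mul_one _
    refine lt_of_le_of_lt h4 ?_
    rw [lt_div_iff₀ (by positivity)] at hj
    linarith

lemma nu_ball_pos {z : ℂ} (hz : z ∈ sphere (0 : ℂ) 1) {r : ℝ} (hr : 0 < r) :
    0 < nu (ball z r) := by
  rw [pos_iff_ne_zero]
  intro h0
  obtain ⟨j, ω, hω, hmem⟩ := exists_root_near (mem_sphere_zero_iff_norm.mp hz) hr
  have h1 : ∀ᵐ w ∂nu, w ∉ ball z r := by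
    rw [ae_iff]
    have h2 : {w : ℂ | ¬ w ∉ ball z r} = ball z r := by
      ext w
      exact not_not
    rw [h2]
    exact h0
  exact of_nu_ae h1 hω hmem

end Pool.Agent.W2helper18.BM
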