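import Pool.Agent.W2helper18.BM.Defs
import Pool.Agent.Q72.WE.Pot

set_option autoImplicit false
open MeasureTheory Filter Topology Metric Real
open scoped Laplacian

namespace Pool.Agent.W2helper18.BM

/-- The normalised arc length measure `dθ/2π` on the unit circle. -/
noncomputable def sigma : Measure ℂ :=
  ENNReal.ofReal (2 * Real.pi)⁻¹ •
    (volume.restrict (Set.Ioc 0 (2 * Real.pi))).map (circleMap 0 1)

lemma measurable_cm : Measurable (circleMap 0 1) := (continuous_circleMap 0 1).measurable

instance : IsProbabilityMeasure sigma := by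
  constructor
  unfold sigma
  rw [Measure.smul_apply, Measure.map_apply measurable_cm MeasurableSet.univ, Set.preimage_univ,
    Measure.restrict_apply_univ, Real.volume_Ioc, smul_eq_mul, ← ENNReal.ofReal_mul (by positivity),
    sub_zero, inv_mul_cancel₀ (by positivity), ENNReal.ofReal_one]

lemma integral_sigma {f : ℂ → ℝ} (hf : Measurable f) :
    ∫ w, f w ∂sigma = Real.circleAverage f 0 1 := by
  unfold sigma Real.circleAverage
  rw [integral_smul_measure, integral_map measurable_cm.aemeasurable
    hf.aestronglyMeasurable, intervalIntegral.integral_of_le (by positivity),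
    ENNReal.toReal_ofReal (by positivity)]

lemma integral_sigma_complex {f : ℂ → ℂ} (hf : Measurable f) :
    ∫ w, f w ∂sigma = Real.circleAverage f 0 1 := by
  unfold sigma Real.circleAverage
  rw [integral_smul_measure, integral_map measurable_cm.aemeasurable
    hf.aestronglyMeasurable, intervalIntegral.integral_of_le (by positivity),
    ENNReal.toReal_ofReal (by positivity)]

lemma sigma_norm : ∀ᵐ w ∂sigma, ‖w‖ = 1 := by
  unfold sigma
  apply Measure.ae_smul_measure
  rw [ae_map_iff measurable_cm.aemeasurable (measurableSet_eq_fun (by fun_prop) (by fun_prop))]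
  exact Eventually.of_forall fun θ => by simp

lemma two_le_infty : (2 : WithTop ℕ∞) ≤ ((⊤ : ℕ∞) : WithTop ℕ∞) := by
  have : ((2 : ℕ∞) : WithTop ℕ∞) ≤ ((⊤ : ℕ∞) : WithTop ℕ∞) := WithTop.coe_le_coe.2 le_top
  exact this

theorem posLog_isDDc : IsDDc (fun z => Real.posLog ‖z‖) sigma := by
  intro φ hφ hc
  have h1 := Pool.Agent.Q72.WE.potential_laplacian sigma (r := 1)
    (by filter_upwards [sigma_norm] with w hw using hw.le)
    (hφ.of_le two_le_infty) hc
  have h2 : ∀ z : ℂ, ∫ w, Real.log ‖z - w‖ ∂sigma = Real.posLog ‖z‖ := by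
    intro z
    rw [integral_sigma (f := fun w => Real.log ‖z - w‖) (Real.measurable_log.comp (by fun_prop)),
      ← circleAverage_log_norm_sub_const_eq_posLog (a := z)]
    congr 1
    funext w
    rw [norm_sub_rev]
  simp only [h2] at h1
  rw [h1]
  field_simp

end Pool.Agent.W2helper18.BM
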