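import Pool.Agent.W2helper18.BM.Moments
import Pool.Agent.W2helper18.BM.Equil

set_option autoImplicit false
open MeasureTheory Filter Topology Metric Real
open scoped Polynomial ComplexConjugate InnerProductSpace

namespace Pool.Agent.W2helper18.BM

/-- the normalised Bergman functional -/
noncomputable def Lk (k : ℕ) (f : ℂ → ℂ) : ℂ :=
  ((k : ℂ) + 1)⁻¹ * ∫ z, f z * (nb (evk k z) : ℂ) ∂nu

lemma integrable_mul_bk {f : ℂ → ℂ} (hf : Continuous f) (k : ℕ) :
    Integrable (fun z => f z * (nb (evk k z) : ℂ)) nu :=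
  integrable_nu_cont (hf.mul (Complex.continuous_ofReal.comp (cont_bk k)))

lemma integrable_sigma {f : ℂ → ℂ} (hf : Continuous f) : Integrable f sigma := by
  have h1 : sigma.restrict (sphere (0 : ℂ) 1) = sigma := by
    rw [Measure.restrict_eq_self_of_ae_mem]
    filter_upwards [sigma_norm] with z hz
    rwa [mem_sphere_zero_iff_norm]
  rw [← h1]
  exact hf.continuousOn.integrableOn_compact (isCompact_sphere (0 : ℂ) 1)

lemma Lk_bound (k : ℕ) {f : ℂ → ℂ} {C : ℝ} (hC : ∀ z : ℂ, ‖z‖ = 1 → ‖f z‖ ≤ C) :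
    ‖Lk k f‖ ≤ C := by
  unfold Lk
  have hk : (0 : ℝ) < (k : ℝ) + 1 := by positivity
  have h1 : ‖∫ z, f z * (nb (evk k z) : ℂ) ∂nu‖ ≤ ∫ z, C * nb (evk k z) ∂nu := by
    apply norm_integral_le_of_norm_le
    · exact integrable_nu_cont ((cont_bk k).const_smul C)
    · filter_upwards [nu_norm] with z hz
      rw [norm_mul, Complex.norm_real, Real.norm_of_nonneg (nb_nonneg _)]
      exact mul_le_mul_of_nonneg_right (hC z hz) (nb_nonneg _)
  rw [integral_const_mul, integral_bk] at h1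
  rw [norm_mul, norm_inv]
  have h2 : ‖(k : ℂ) + 1‖ = (k : ℝ) + 1 := by
    have : ((k : ℂ) + 1) = (((k : ℝ) + 1 : ℝ) : ℂ) := by push_cast; rfl
    rw [this, Complex.norm_real, Real.norm_of_nonneg hk.le]
  rw [h2, inv_mul_le_iff₀ hk]
  linarith

lemma Lsigma_bound {f : ℂ → ℂ} {C : ℝ} (hC : ∀ z : ℂ, ‖z‖ = 1 → ‖f z‖ ≤ C) :
    ‖∫ z, f z ∂sigma‖ ≤ C := by
  have := norm_integral_le_of_norm_le_const (μ := sigma) (f := f) (C := C)
    (by filter_upwards [sigma_norm] with z hz using hC z hz)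
  simpa using this

lemma Lk_add (k : ℕ) {f g : ℂ → ℂ} (hf : Continuous f) (hg : Continuous g) :
    Lk k (fun z => f z + g z) = Lk k f + Lk k g := by
  unfold Lk
  rw [← mul_add, ← integral_add (integrable_mul_bk hf k) (integrable_mul_bk hg k)]
  congr 2
  funext z
  ring

lemma Lk_sub (k : ℕ) {f g : ℂ → ℂ} (hf : Continuous f) (hg : Continuous g) :
    Lk k (fun z => f z - g z) = Lk k f - Lk k g := by
  unfold Lk
  rw [← mul_sub, ← integral_sub (integrable_mul_bk hf k) (integrable_mul_bk hg k)]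
  congr 2
  funext z
  ring

lemma Lk_smul (k : ℕ) (c : ℂ) (f : ℂ → ℂ) : Lk k (fun z => c * f z) = c * Lk k f := by
  unfold Lk
  have h1 : (fun z => (fun z => c * f z) z * (nb (evk k z) : ℂ)) =
      fun z => c * (f z * (nb (evk k z) : ℂ)) := by funext z; ring
  rw [h1, integral_const_mul]
  ring

/-- convergence of moments -/
lemma tendsto_pow {m : ℕ} (hm : 0 < m) :
    Tendsto (fun k => Lk k (fun z => z ^ m)) atTop (𝓝 0) := by
  have hmi : m < 2 ^ m := Nat.lt_two_pow_self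
  rw [tendsto_zero_iff_norm_tendsto_zero]
  have h1 : Tendsto (fun k : ℕ => (1 / ((k : ℝ) + 1)) * 2 ^ m) atTop (𝓝 (0 * 2 ^ m)) :=
    (tendsto_one_div_add_atTop_nhds_zero_nat (𝕜 := ℝ)).mul_const _
  rw [zero_mul] at h1
  refine squeeze_zero (fun _ => norm_nonneg _) (fun k => ?_) h1
  unfold Lk
  have hk : (0 : ℝ) < (k : ℝ) + 1 := by positivity
  have h2 : ‖(k : ℂ) + 1‖ = (k : ℝ) + 1 := by
    have : ((k : ℂ) + 1) = (((k : ℝ) + 1 : ℝ) : ℂ) := by push_cast; rfl
    rw [this, Complex.norm_real, Real.norm_of_nonneg hk.le]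
  rw [norm_mul, norm_inv, h2, one_div]
  have := moment_bound (k := k) hm hmi
  gcongr

lemma Lk_conj (k : ℕ) (f : ℂ → ℂ) : Lk k (fun z => conj (f z)) = conj (Lk k f) := by
  unfold Lk
  rw [map_mul, ← integral_conj]
  congr 1
  · simp
  · congr 1
    funext z
    simp

lemma sigma_pow {m : ℕ} (hm : 0 < m) : ∫ z : ℂ, z ^ m ∂sigma = 0 := by
  rw [integral_sigma_complex (by fun_prop)]
  have h1 : DiffContOnCl ℂ (fun z : ℂ => z ^ m) (ball (0 : ℂ) |1|) :=
    (differentiable_id.pow m).diffContOnCl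
  rw [h1.circleAverage]
  simp [hm.ne']

/-- The property of trigonometric polynomials used in the density argument. -/
def Good (g : C(UnitAddCircle, ℂ)) : Prop :=
  ∃ G : ℂ → ℂ, Continuous G ∧ (∀ x : UnitAddCircle, G (fourier 1 x) = g x) ∧
    Tendsto (fun k => Lk k G) atTop (𝓝 (∫ z, G z ∂sigma))

lemma fourier_nat (m : ℕ) (x : UnitAddCircle) : fourier (m : ℤ) x = (fourier 1 x) ^ m := by
  induction m with
  | zero => simp
  | succ m ih =>
    rw [Nat.cast_succ, fourier_add, ih, pow_succ]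

lemma good_fourier (n : ℤ) : Good (fourier n) := by
  have key : ∀ m : ℕ, Tendsto (fun k => Lk k (fun z => z ^ m)) atTop
      (𝓝 (∫ z : ℂ, z ^ m ∂sigma)) := by
    intro m
    rcases Nat.eq_zero_or_pos m with rfl | hm
    · have h1 : ∀ k, Lk k (fun z => z ^ 0) = 1 := by
        intro k
        unfold Lk
        have h2 : ∫ z, (fun z : ℂ => z ^ 0) z * (nb (evk k z) : ℂ) ∂nu = ((k : ℂ) + 1) := by
          have h3 : (fun z : ℂ => (fun z : ℂ => z ^ 0) z * (nb (evk k z) : ℂ)) =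
              fun z => (nb (evk k z) : ℂ) := by funext z; simp
          rw [h3, integral_complex_ofReal, integral_bk]
          push_cast; rfl
        rw [h2]
        apply inv_mul_cancel₀
        exact_mod_cast (Nat.succ_ne_zero k)
      simp only [h1]
      simp
    · rw [sigma_pow hm]
      exact tendsto_pow hm
  rcases Int.eq_nat_or_neg n with ⟨m, rfl | rfl⟩
  · exact ⟨fun z => z ^ m, continuous_pow m, fun x => (fourier_nat m x).symm, key m⟩
  · refine ⟨fun z => conj (z ^ m), Complex.continuous_conj.comp (continuous_pow m), fun x => ?_, ?_⟩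
    · rw [fourier_neg, fourier_nat]
    · have h1 := (Complex.continuous_conj.tendsto _).comp (key m)
      rw [← integral_conj] at h1
      refine h1.congr fun k => ?_
      exact (Lk_conj k _).symm

lemma good_span {g : C(UnitAddCircle, ℂ)}
    (hg : g ∈ Submodule.span ℂ (Set.range (@fourier (1 : ℝ)))) : Good g := by
  induction hg using Submodule.span_induction with
  | mem x hx =>
    obtain ⟨n, rfl⟩ := hx
    exact good_fourier n
  | zero =>
    refine ⟨fun _ => 0, continuous_const, fun _ => rfl, ?_⟩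
    have : ∀ k, Lk k (fun _ => 0) = 0 := by
      intro k; unfold Lk; simp
    simp [this]
  | add x y _ _ hx hy =>
    obtain ⟨G, hGc, hG, hGt⟩ := hx
    obtain ⟨H, hHc, hH, hHt⟩ := hy
    refine ⟨fun z => G z + H z, hGc.add hHc, fun t => ?_, ?_⟩
    · show G _ + H _ = _
      rw [hG, hH]; rfl
    · rw [integral_add (integrable_sigma hGc) (integrable_sigma hHc)]
      refine (hGt.add hHt).congr fun k => ?_
      rw [Lk_add k hGc hHc]
  | smul c x _ hx =>
    obtain ⟨G, hGc, hG, hGt⟩ := hx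
    refine ⟨fun z => c * G z, hGc.const_smul c, fun t => ?_, ?_⟩
    · show c * G _ = _
      rw [hG]; rfl
    · rw [integral_const_mul]
      refine (hGt.const_mul c).congr fun k => ?_
      rw [Lk_smul]

lemma exists_fourier_one {z : ℂ} (hz : ‖z‖ = 1) :
    ∃ x : UnitAddCircle, fourier (T := 1) 1 x = z := by
  refine ⟨((Complex.arg z / (2 * π) : ℝ) : UnitAddCircle), ?_⟩
  rw [fourier_coe_apply]
  have h1 : (2 * π * Complex.I * (1 : ℤ) * ((Complex.arg z / (2 * π) : ℝ) : ℂ) / ((1 : ℝ) : ℂ)) =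
      Complex.arg z * Complex.I := by
    push_cast
    have : (π : ℂ) ≠ 0 := by exact_mod_cast Real.pi_ne_zero
    field_simp
  rw [h1]
  have h2 := Complex.norm_mul_exp_arg_mul_I z
  rw [hz] at h2
  simpa using h2

theorem tendsto_Lk {f : ℂ → ℂ} (hf : Continuous f) :
    Tendsto (fun k => Lk k f) atTop (𝓝 (∫ z, f z ∂sigma)) := by
  rw [Metric.tendsto_atTop]
  intro ε hε
  -- approximate by a trigonometric polynomial
  set F : C(UnitAddCircle, ℂ) := ⟨fun x => f (fourier 1 x), by fun_prop⟩ with hF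
  have hmem : F ∈ closure ((Submodule.span ℂ (Set.range (@fourier (1 : ℝ))) :
      Set C(UnitAddCircle, ℂ))) := by
    have h1 := span_fourier_closure_eq_top (T := (1 : ℝ))
    have h2 : F ∈ (Submodule.span ℂ (Set.range (@fourier (1 : ℝ)))).topologicalClosure := by
      rw [h1]; trivial
    exact h2
  obtain ⟨g, hg, hgF⟩ := Metric.mem_closure_iff.mp hmem (ε / 4) (by positivity)
  obtain ⟨G, hGc, hG, hGt⟩ := good_span hg
  have hclose : ∀ z : ℂ, ‖z‖ = 1 → ‖f z - G z‖ ≤ ε / 4 := by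
    intro z hz
    obtain ⟨x, rfl⟩ := exists_fourier_one hz
    rw [hG]
    have h1 : ‖F x - g x‖ ≤ dist F g := by
      rw [← dist_eq_norm]
      exact ContinuousMap.dist_apply_le_dist x
    exact h1.trans hgF.le
  obtain ⟨K, hK⟩ := (Metric.tendsto_atTop.mp hGt) (ε / 4) (by positivity)
  refine ⟨K, fun k hk => ?_⟩
  have h1 := hK k hk
  rw [dist_eq_norm] at h1 ⊢
  have h2 := Lk_bound k hclose
  rw [Lk_sub k hf hGc] at h2
  have h3 := Lsigma_bound hclose
  rw [integral_sub (integrable_sigma hf) (integrable_sigma hGc)] at h3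
  have h4 : Lk k f - ∫ z, f z ∂sigma = (Lk k f - Lk k G) + (Lk k G - ∫ z, G z ∂sigma) -
      (∫ z, f z ∂sigma - ∫ z, G z ∂sigma) := by ring
  rw [h4]
  calc ‖(Lk k f - Lk k G) + (Lk k G - ∫ z, G z ∂sigma) -
      (∫ z, f z ∂sigma - ∫ z, G z ∂sigma)‖
      ≤ ‖(Lk k f - Lk k G) + (Lk k G - ∫ z, G z ∂sigma)‖ +
        ‖∫ z, f z ∂sigma - ∫ z, G z ∂sigma‖ := norm_sub_le _ _
    _ ≤ ‖Lk k f - Lk k G‖ + ‖Lk k G - ∫ z, G z ∂sigma‖ +
        ‖∫ z, f z ∂sigma - ∫ z, G z ∂sigma‖ := by gcongr; exact norm_add_le _ _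
    _ < ε := by linarith

/-- property (S) -/
theorem propS {B : ℕ → ℂ → ℝ} (hB : ∀ k, IsBergman nu k (B k)) : PropS nu sigma B := by
  intro φ hφ
  have h1 := tendsto_Lk (f := fun z => (φ z : ℂ)) (Complex.continuous_ofReal.comp hφ)
  have h2 := (Complex.continuous_re.tendsto _).comp h1
  rw [integral_complex_ofReal] at h2
  rw [Complex.ofReal_re] at h2
  refine h2.congr fun k => ?_
  simp only [Function.comp]
  unfold Lk
  have h3 : ∫ z, (φ z : ℂ) * (nb (evk k z) : ℂ) ∂nu = ((∫ z, φ z * B k z ∂nu : ℝ) : ℂ) := by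
    rw [← integral_complex_ofReal]
    congr 1
    funext z
    rw [bergman_eq (hB k) z]
    push_cast
    rfl
  rw [h3]
  have h4 : ((k : ℂ) + 1)⁻¹ * ((∫ z, φ z * B k z ∂nu : ℝ) : ℂ) =
      ((((k : ℝ) + 1)⁻¹ * ∫ z, φ z * B k z ∂nu : ℝ) : ℂ) := by push_cast; rfl
  rw [h4, Complex.ofReal_re]

/-- failure of (W), already at the point `2` -/
theorem not_propW {B : ℕ → ℂ → ℝ} (hB : ∀ k, IsBergman nu k (B k)) :
    ¬ PropW (fun z => Real.posLog ‖z‖) B := by
  intro hW
  have h1 : Tendsto (fun k : ℕ => (2 * (k : ℝ))⁻¹ * Real.log (B k 2)) atTop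
      (𝓝 (Real.posLog ‖(2 : ℂ)‖)) :=
    (tendstoLocallyUniformlyOn_univ.mpr hW).tendsto_at (Set.mem_univ 2)
  have h2 : Tendsto (fun j : ℕ => 2 ^ j) atTop atTop :=
    tendsto_pow_atTop_atTop_of_one_lt (by norm_num : 1 < 2)
  have h3 := h1.comp h2
  have hlog2 : Real.posLog ‖(2 : ℂ)‖ = Real.log 2 := by
    rw [show ‖(2 : ℂ)‖ = 2 by simp]
    exact Real.posLog_eq_log (by norm_num)
  rw [hlog2] at h3
  have h4 : ∀ j : ℕ, (5 / 2) * Real.log 2 ≤
      ((fun k : ℕ => (2 * (k : ℝ))⁻¹ * Real.log (B k 2)) ∘ fun j : ℕ => 2 ^ j) j := by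
    intro j
    simp only [Function.comp]
    set N : ℕ := 2 ^ j with hN
    have hN1 : 1 ≤ N := Nat.one_le_two_pow
    have hN0 : (0 : ℝ) < N := by exact_mod_cast hN1
    rw [bergman_eq (hB N)]
    set p : ℂ[X] := Polynomial.X ^ N - 1 with hp
    have hdeg : p.natDegree ≤ N := by
      rw [hp]; compute_degree
    have hle := le_bk hdeg 2
    have heval : ∀ z : ℂ, p.eval z = z ^ N - 1 := by intro z; simp [hp]
    simp only [heval] at hle
    have hsm := small_norm j
    rw [← hN] at hsm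
    set b := nb (evk N 2) with hb
    have hb0 : 0 ≤ b := nb_nonneg _
    have h5 : ‖(2 : ℂ) ^ N - 1‖ = 2 ^ N - 1 := by
      have : ((2 : ℂ) ^ N - 1) = (((2 : ℝ) ^ N - 1 : ℝ) : ℂ) := by push_cast; rfl
      rw [this, Complex.norm_real, Real.norm_of_nonneg]
      have : (1 : ℝ) ≤ 2 ^ N := one_le_pow₀ (by norm_num)
      linarith
    rw [h5] at hle
    have h6 : (2 : ℝ) ^ N ≤ 2 * (2 ^ N - 1) := by
      have : (2 : ℝ) ^ 1 ≤ 2 ^ N := pow_le_pow_right₀ (by norm_num) hN1
      linarith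
    have h7 : ((2 : ℝ) ^ N) ^ 2 ≤ 4 * (b * (8 * (1 / 16 : ℝ) ^ (2 * N))) := by
      have h8 : b * ∫ w : ℂ, ‖w ^ N - 1‖ ^ 2 ∂nu ≤ b * (8 * (1 / 16 : ℝ) ^ (2 * N)) := by
        gcongr
      have h9 : (0 : ℝ) ≤ 2 ^ N - 1 := by
        have : (1 : ℝ) ≤ 2 ^ N := one_le_pow₀ (by norm_num)
        linarith
      nlinarith
    -- `b ≥ 1024^N / 32 ≥ 32^N`
    have h10 : (32 : ℝ) ^ N ≤ b := by
      have e1 : ((1 : ℝ) / 16) ^ (2 * N) = ((256 : ℝ) ^ N)⁻¹ := by
        rw [pow_mul, ← inv_pow]; norm_num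
      have e2 : ((2 : ℝ) ^ N) ^ 2 = 4 ^ N := by
        rw [← pow_mul, mul_comm, pow_mul]; norm_num
      rw [e1, e2] at h7
      have h256 : (0 : ℝ) < 256 ^ N := by positivity
      have h11 : (4 : ℝ) ^ N * 256 ^ N ≤ 32 * b := by
        have := mul_le_mul_of_nonneg_right h7 h256.le
        calc (4 : ℝ) ^ N * 256 ^ N ≤ 4 * (b * (8 * (256 ^ N)⁻¹)) * 256 ^ N := this
          _ = 32 * b := by field_simp; ring
      have h12 : (4 : ℝ) ^ N * 256 ^ N = 32 ^ N * 32 ^ N := by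
        rw [← mul_pow, ← mul_pow]; norm_num
      have h13 : (32 : ℝ) ≤ 32 ^ N := by
        calc (32 : ℝ) = 32 ^ 1 := by norm_num
          _ ≤ 32 ^ N := pow_le_pow_right₀ (by norm_num) hN1
      have h14 : (0 : ℝ) < 32 ^ N := by positivity
      nlinarith
    have h15 : (N : ℝ) * (5 * Real.log 2) ≤ Real.log b := by
      have e3 : Real.log ((32 : ℝ) ^ N) ≤ Real.log b :=
        Real.log_le_log (by positivity) h10
      rw [Real.log_pow, show (32 : ℝ) = 2 ^ 5 by norm_num, Real.log_pow] at e3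
      exact_mod_cast e3
    calc (5 / 2) * Real.log 2 = (2 * (N : ℝ))⁻¹ * ((N : ℝ) * (5 * Real.log 2)) := by
          field_simp
      _ ≤ (2 * (N : ℝ))⁻¹ * Real.log b := by gcongr
  have h5 := ge_of_tendsto' h3 h4
  have h6 : 0 < Real.log 2 := Real.log_pos (by norm_num)
  linarith

end Pool.Agent.W2helper18.BM
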