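import Mathlib

/-!
# Definitions for the comparison of two Bergman function asymptotics, `n = 1`

Everything is stated in the complex plane `ℂ = ℂ^1`, where plurisubharmonic means subharmonic,
`dd^c = (1/2π) Δ`, and `N_k = k + 1`.
-/

set_option autoImplicit false
open MeasureTheory Filter Topology
open scoped Laplacian ComplexConjugate Polynomial

namespace Pool.Agent.W2helper18.BM

/-- Subharmonic functions on `ℂ` (the psh functions for `n = 1`) with values in `[-∞, ∞)`: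
upper semicontinuous functions with the sub-mean value inequality
`u(z) ≤ (1/2π) ∫ u(z + r e^{iθ}) dθ`.  For an upper semicontinuous `u < ∞` the right hand integral is
the infimum of the integrals of the continuous real functions `g ≥ u` on the circle, so the
inequality is stated with these majorants `g`. -/
structure IsSubharmonic (u : ℂ → EReal) : Prop where
  lt_top : ∀ z, u z < ⊤
  usc : UpperSemicontinuous u
  submean : ∀ (z : ℂ) (r : ℝ), 0 < r → ∀ g : ℂ → ℝ, ContinuousOn g (Metric.sphere z r) →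
    (∀ ζ ∈ Metric.sphere z r, u ζ ≤ (g ζ : EReal)) → u z ≤ ((Real.circleAverage g z r : ℝ) : EReal)

/-- The competitors in the definition of the Siciak-Zaharjuta function of `K`. -/
def IsCompetitor (K : Set ℂ) (u : ℂ → EReal) : Prop :=
  IsSubharmonic u ∧ (∃ C : ℝ, ∀ z, u z ≤ ((Real.posLog ‖z‖ + C : ℝ) : EReal)) ∧ ∀ z ∈ K, u z ≤ 0

/-- The Siciak-Zaharjuta extremal function `V_K`. -/
noncomputable def extremal (K : Set ℂ) (z : ℂ) : EReal :=
  sSup {x | ∃ u : ℂ → EReal, IsCompetitor K u ∧ u z = x}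

/-- `μ = dd^c V` in the sense of distributions, with `dd^c = (1/2π) Δ` for `n = 1`. -/
def IsDDc (V : ℂ → ℝ) (μ : Measure ℂ) : Prop :=
  ∀ φ : ℂ → ℝ, ContDiff ℝ (⊤ : ℕ∞) φ → HasCompactSupport φ →
    ∫ z, φ z ∂μ = (2 * Real.pi)⁻¹ * ∫ z, V z * Δ φ z

/-- `e` is an `L²(ν)`-orthonormal basis of the `(k+1)`-dimensional space `P_k` of polynomials of
degree at most `k`. -/
def IsONB (ν : Measure ℂ) (k : ℕ) (e : Fin (k + 1) → ℂ[X]) : Prop :=
  (∀ i, (e i).natDegree ≤ k) ∧
    ∀ i j, ∫ z, (e i).eval z * conj ((e j).eval z) ∂ν = if i = j then 1 else 0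

/-- `B` is the `k`-th Bergman function of `ν`: `B = ∑ |e_i|²` for an orthonormal basis `e` of
`P_k`. -/
def IsBergman (ν : Measure ℂ) (k : ℕ) (B : ℂ → ℝ) : Prop :=
  ∃ e : Fin (k + 1) → ℂ[X], IsONB ν k e ∧ ∀ z, B z = ∑ i, ‖(e i).eval z‖ ^ 2

/-- Property (S): the measures `N_k⁻¹ B_k ν` converge weak-* to `μ`. -/
def PropS (ν μ : Measure ℂ) (B : ℕ → ℂ → ℝ) : Prop :=
  ∀ φ : ℂ → ℝ, Continuous φ →
    Tendsto (fun k : ℕ => ((k : ℝ) + 1)⁻¹ * ∫ z, φ z * B k z ∂ν) atTop (𝓝 (∫ z, φ z ∂μ))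

/-- Property (W): the functions `(2k)⁻¹ log B_k` converge to `V` locally uniformly on `ℂ`. -/
def PropW (V : ℂ → ℝ) (B : ℕ → ℂ → ℝ) : Prop :=
  TendstoLocallyUniformly (fun (k : ℕ) (z : ℂ) => (2 * (k : ℝ))⁻¹ * Real.log (B k z)) V atTop

end Pool.Agent.W2helper18.BM
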