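import Pool.Agent.W2helper18.BM.Defs

set_option autoImplicit false
open MeasureTheory Filter Topology Metric Real

namespace Pool.Agent.W2helper18.BM

/-- circle average of `|ζ|²` -/
lemma circleAverage_normSq (z : ℂ) (r : ℝ) :
    Real.circleAverage (fun ζ : ℂ => ‖ζ‖ ^ 2) z r = ‖z‖ ^ 2 + r ^ 2 := by
  unfold Real.circleAverage
  have h1 : ∀ θ : ℝ, ‖circleMap z r θ‖ ^ 2 =
      (‖z‖ ^ 2 + r ^ 2) + 2 * r * (z.re * Real.cos θ + z.im * Real.sin θ) := by
    intro θ
    rw [← Complex.normSq_eq_norm_sq, ← Complex.normSq_eq_norm_sq, circleMap]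
    rw [Complex.normSq_apply, Complex.normSq_apply]
    simp only [Complex.add_re, Complex.add_im, Complex.mul_re, Complex.mul_im, Complex.ofReal_re,
      Complex.ofReal_im, Complex.exp_ofReal_mul_I_re, Complex.exp_ofReal_mul_I_im]
    have := Real.sin_sq_add_cos_sq θ
    linear_combination (r ^ 2) * this
  simp only [h1]
  rw [intervalIntegral.integral_add, intervalIntegral.integral_const,
    intervalIntegral.integral_const_mul, intervalIntegral.integral_add,
    intervalIntegral.integral_const_mul, intervalIntegral.integral_const_mul, integral_cos,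
    integral_sin]
  · simp
    field_simp
  · exact (Continuous.intervalIntegrable (by fun_prop) _ _)
  · exact (Continuous.intervalIntegrable (by fun_prop) _ _)
  · exact (Continuous.intervalIntegrable (by fun_prop) _ _)
  · exact (Continuous.intervalIntegrable (by fun_prop) _ _)

/-- Maximum principle against a function with the mean value property. -/
lemma maxPrinciple {u : ℂ → EReal} (hu : IsSubharmonic u) {F U : Set ℂ} (hF : IsCompact F)
    (hU : IsOpen U) (hUF : U ⊆ F) {h : ℂ → ℝ} (hh : ContinuousOn h F)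
    (hmean : ∀ z ∈ U, ∀ r : ℝ, 0 < r → closedBall z r ⊆ U → Real.circleAverage h z r = h z)
    (hb : ∀ z ∈ F, z ∉ U → u z ≤ (h z : EReal)) : ∀ z ∈ F, u z ≤ (h z : EReal) := by
  intro z1 hz1
  by_contra hcon
  rw [not_le] at hcon
  have hz1top := hu.lt_top z1
  have hz1bot : u z1 ≠ ⊥ := fun hh' => by rw [hh'] at hcon; exact not_lt_bot hcon
  obtain ⟨a, ha⟩ : ∃ a : ℝ, u z1 = (a : EReal) := ⟨(u z1).toReal, (EReal.coe_toReal hz1top.ne hz1bot).symm⟩
  rw [ha, EReal.coe_lt_coe_iff] at hcon
  obtain ⟨R, hR⟩ := hF.isBounded.exists_norm_le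
  have hR0 : 0 ≤ R := (norm_nonneg _).trans (hR z1 hz1)
  set δ : ℝ := (a - h z1) / (2 * (R ^ 2 + 1)) with hδ
  have hδ0 : 0 < δ := by
    apply div_pos <;> [linarith; positivity]
  have hδR : δ * R ^ 2 < a - h z1 := by
    rw [hδ, div_mul_eq_mul_div, div_lt_iff₀ (by positivity)]
    have : 0 < a - h z1 := by linarith
    nlinarith [sq_nonneg R]
  -- the perturbed function
  set w : ℂ → EReal := fun z => u z + ((δ * ‖z‖ ^ 2 - h z : ℝ) : EReal) with hw
  have husc : UpperSemicontinuousOn w F := by
    have h2 : ContinuousOn (fun z => ((δ * ‖z‖ ^ 2 - h z : ℝ) : EReal)) F := by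
      apply continuous_coe_real_ereal.comp_continuousOn
      apply ContinuousOn.sub _ hh
      fun_prop
    refine UpperSemicontinuousOn.add' (hu.usc.upperSemicontinuousOn F) h2.upperSemicontinuousOn ?_
    intro x hx
    exact EReal.continuousAt_add (Or.inr (EReal.coe_ne_bot _)) (Or.inr (EReal.coe_ne_top _))
  obtain ⟨z0, hz0, hmax⟩ := husc.exists_isMaxOn ⟨z1, hz1⟩ hF
  have hw1 : w z1 ≤ w z0 := hmax hz1
  have hw1' : ((δ * R ^ 2 : ℝ) : EReal) < w z1 := by
    simp only [hw, ha]
    rw [← EReal.coe_add, EReal.coe_lt_coe_iff]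
    have : 0 ≤ δ * ‖z1‖ ^ 2 := by positivity
    linarith
  have hbig : ((δ * R ^ 2 : ℝ) : EReal) < w z0 := lt_of_lt_of_le hw1' hw1
  have hz0U : z0 ∈ U := by
    by_contra hn
    have h3 := hb z0 hz0 hn
    have h4 : w z0 ≤ ((δ * R ^ 2 : ℝ) : EReal) := by
      simp only [hw]
      calc u z0 + ((δ * ‖z0‖ ^ 2 - h z0 : ℝ) : EReal)
          ≤ (h z0 : EReal) + ((δ * ‖z0‖ ^ 2 - h z0 : ℝ) : EReal) := add_le_add_left h3 _
        _ = ((δ * ‖z0‖ ^ 2 : ℝ) : EReal) := by
            rw [← EReal.coe_add]; congr 1; ring
        _ ≤ _ := by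
            rw [EReal.coe_le_coe_iff]
            have := hR z0 hz0
            gcongr
    exact absurd hbig (not_lt.mpr h4)
  -- finite value at z0
  have hz0bot : u z0 ≠ ⊥ := by
    intro hbot
    simp only [hw, hbot, EReal.bot_add] at hbig
    exact not_lt_bot hbig
  obtain ⟨b, hb0⟩ : ∃ b : ℝ, u z0 = (b : EReal) :=
    ⟨(u z0).toReal, (EReal.coe_toReal (hu.lt_top z0).ne hz0bot).symm⟩
  obtain ⟨r, hr0, hr⟩ := Metric.isOpen_iff.mp hU z0 hz0U
  set s : ℝ := r / 2 with hs
  have hs0 : 0 < s := by positivity
  have hsU : closedBall z0 s ⊆ U :=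
    (closedBall_subset_ball (by rw [hs]; linarith)).trans hr
  set m : ℝ := b + (δ * ‖z0‖ ^ 2 - h z0) with hm
  set g : ℂ → ℝ := fun ζ => m - δ * ‖ζ‖ ^ 2 + h ζ with hg
  have hsphere : sphere z0 s ⊆ F := (sphere_subset_closedBall.trans hsU).trans hUF
  have hgc : ContinuousOn g (sphere z0 s) := by
    apply ContinuousOn.add _ (hh.mono hsphere)
    fun_prop
  have hug : ∀ ζ ∈ sphere z0 s, u ζ ≤ (g ζ : EReal) := by
    intro ζ hζ
    have h5 : w ζ ≤ w z0 := hmax (hsphere hζ)
    simp only [hw, hb0] at h5
    rw [← EReal.coe_add] at h5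
    by_cases hbt : u ζ = ⊥
    · rw [hbt]; exact bot_le
    · obtain ⟨c, hc⟩ : ∃ c : ℝ, u ζ = (c : EReal) :=
        ⟨(u ζ).toReal, (EReal.coe_toReal (hu.lt_top ζ).ne hbt).symm⟩
      rw [hc] at h5 ⊢
      rw [← EReal.coe_add, EReal.coe_le_coe_iff] at h5
      rw [EReal.coe_le_coe_iff]
      simp only [hg, hm]
      linarith
  have hfin := hu.submean z0 s hs0 g hgc hug
  have havg : Real.circleAverage g z0 s = m - δ * (‖z0‖ ^ 2 + s ^ 2) + h z0 := by
    have e1 : g = ((fun _ => m) - (fun ζ : ℂ => δ • ‖ζ‖ ^ 2)) + h := by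
      funext ζ; simp [hg]
    have hs1 : |s| = s := abs_of_pos hs0
    rw [e1, Real.circleAverage_add, Real.circleAverage_sub, Real.circleAverage_const,
      Real.circleAverage_fun_smul, circleAverage_normSq, hmean z0 hz0U s hs0 hsU]
    · simp
    · exact circleIntegrable_const _ _ _
    · apply ContinuousOn.circleIntegrable'
      fun_prop
    · apply ContinuousOn.circleIntegrable'
      fun_prop
    · apply ContinuousOn.circleIntegrable'
      rw [hs1]; exact hh.mono hsphere
  rw [hb0, havg, EReal.coe_le_coe_iff, hm] at hfin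
  have : 0 < δ * s ^ 2 := by positivity
  linarith

lemma posLog_isSubharmonic : IsSubharmonic (fun z => ((Real.posLog ‖z‖ : ℝ) : EReal)) := by
  refine ⟨fun z => EReal.coe_lt_top _, ?_, ?_⟩
  · apply Continuous.upperSemicontinuous
    apply continuous_coe_real_ereal.comp
    exact Real.continuous_posLog.comp continuous_norm
  · intro z r hr g hg hle
    rw [EReal.coe_le_coe_iff]
    have hle' : ∀ ζ ∈ sphere z |r|, Real.posLog ‖ζ‖ ≤ g ζ := by
      intro ζ hζ
      rw [abs_of_pos hr] at hζ
      have := hle ζ hζ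
      exact_mod_cast this
    have hgi : CircleIntegrable g z r := by
      apply ContinuousOn.circleIntegrable'
      rw [abs_of_pos hr]; exact hg
    have h0 := Real.circleAverage_mono (circleIntegrable_const (0 : ℝ) z r) hgi
        (fun ζ hζ => (Real.posLog_nonneg).trans (hle' ζ hζ))
    rw [Real.circleAverage_const] at h0
    by_cases hz : z = 0
    · subst hz
      simpa [Real.posLog] using h0
    unfold Real.posLog
    apply max_le h0
    have h1 := Real.circleAverage_mono (f₁ := fun ζ => Real.log ‖ζ - 0‖) (c := z) (R := r)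
        (MeromorphicOn.circleIntegrable_log_norm (fun _ _ ↦ by fun_prop)) hgi
        (fun ζ hζ => by
          simp only [sub_zero]
          exact (le_max_right _ _).trans (hle' ζ hζ))
    have h2 := circleAverage_log_norm_sub_const_eq_log_radius_add_posLog (a := 0) (c := z)
        (R := r) hr.ne'
    rw [h2] at h1
    refine le_trans ?_ h1
    rw [sub_zero]
    have hz' : 0 < ‖z‖ := norm_pos_iff.mpr hz
    have h3 : Real.log (r⁻¹ * ‖z‖) ≤ Real.posLog (r⁻¹ * ‖z‖) := le_max_right _ _
    rw [Real.log_mul (by positivity) hz'.ne', Real.log_inv] at h3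
    linarith

lemma competitor_le {u : ℂ → EReal} (hu : IsCompetitor (sphere (0 : ℂ) 1) u) (z : ℂ) :
    u z ≤ ((Real.posLog ‖z‖ : ℝ) : EReal) := by
  obtain ⟨hsub, ⟨C, hC⟩, hK⟩ := hu
  by_cases hz : ‖z‖ ≤ 1
  · -- inside the disc
    have h1 := maxPrinciple hsub (F := closedBall 0 1) (U := ball 0 1) (isCompact_closedBall _ _)
      isOpen_ball ball_subset_closedBall (h := fun _ => 0) continuousOn_const
      (fun z _ r _ _ => Real.circleAverage_const 0 z r)
      (fun w hw hw' => by
        have : w ∈ sphere (0 : ℂ) 1 := by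
          rw [mem_closedBall_zero_iff] at hw
          rw [mem_ball_zero_iff, not_lt] at hw'
          rw [mem_sphere_zero_iff_norm]
          exact le_antisymm hw hw'
        simpa using hK w this) z (by simpa using hz)
    refine h1.trans ?_
    rw [EReal.coe_le_coe_iff]
    exact Real.posLog_nonneg
  · rw [not_le] at hz
    have hz0 : 0 < ‖z‖ := by linarith
    have key : ∀ ε : ℝ, 0 < ε → u z ≤ (((1 + ε) * Real.log ‖z‖ : ℝ) : EReal) := by
      intro ε hε
      set R : ℝ := max (‖z‖ + 1) (Real.exp (C / ε)) with hR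
      have hR1 : 1 < R := lt_of_lt_of_le (by linarith) (le_max_left _ _)
      have hRz : ‖z‖ < R := lt_of_lt_of_le (by linarith) (le_max_left _ _)
      have hRC : C ≤ ε * Real.log R := by
        have h2 : C / ε ≤ Real.log R := by
          rw [Real.le_log_iff_exp_le (by linarith)]
          exact le_max_right _ _
        rwa [div_le_iff₀ hε, mul_comm] at h2
      refine maxPrinciple hsub (F := closedBall 0 R ∩ (ball 0 1)ᶜ)
        (U := ball 0 R ∩ (closedBall 0 1)ᶜ) ?_ ?_ ?_ (h := fun w => (1 + ε) * Real.log ‖w‖)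
        ?_ ?_ ?_ z ?_
      · exact (isCompact_closedBall _ _).inter_right isOpen_ball.isClosed_compl
      · exact isOpen_ball.inter isClosed_closedBall.isOpen_compl
      · exact Set.inter_subset_inter ball_subset_closedBall
          (Set.compl_subset_compl.mpr ball_subset_closedBall)
      · apply ContinuousOn.mul continuousOn_const
        apply ContinuousOn.log continuous_norm.continuousOn
        intro w hw h0
        have h3 := hw.2
        rw [Set.mem_compl_iff, mem_ball_zero_iff, h0] at h3
        linarith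
      · intro w hw r hr hrU
        have h3 : r < ‖w‖ := by
          by_contra hcon
          rw [not_lt] at hcon
          have h4 : (0 : ℂ) ∈ closedBall w r := by
            rw [mem_closedBall, dist_eq_norm, zero_sub, norm_neg]; exact hcon
          have h5 := (hrU h4).2
          apply h5
          simp
        have h6 := circleAverage_log_norm_sub_const_eq_log_radius_add_posLog (a := 0) (c := w)
          (R := r) hr.ne'
        rw [sub_zero, Real.posLog_eq_log, Real.log_mul (by positivity) (by linarith),
          Real.log_inv] at h6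
        · have h7 : Real.circleAverage (fun w : ℂ => (1 + ε) * Real.log ‖w‖) w r =
              (1 + ε) * Real.circleAverage (fun w : ℂ => Real.log ‖w - 0‖) w r := by
            have := Real.circleAverage_fun_smul (a := (1 + ε))
              (f := fun w : ℂ => Real.log ‖w - 0‖) (c := w) (R := r)
            simpa using this
          rw [h7]
          have h8 : Real.circleAverage (fun w : ℂ => Real.log ‖w - 0‖) w r = Real.log ‖w‖ := by
            have h9 : (fun w : ℂ => Real.log ‖w - 0‖) = (fun x : ℂ => Real.log ‖x - 0‖) := rfl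
            rw [h6]; ring
          rw [h8]
        · rw [abs_of_nonneg (by positivity), inv_mul_eq_div, one_le_div hr]
          exact h3.le
      · intro w hw hwU
        have hw1 : 1 ≤ ‖w‖ := by
          have := hw.2
          rwa [Set.mem_compl_iff, mem_ball_zero_iff, not_lt] at this
        have hw2 : ‖w‖ ≤ R := by simpa using hw.1
        rcases eq_or_lt_of_le hw1 with h1 | h1
        · have := hK w (by rw [mem_sphere_zero_iff_norm]; exact h1.symm)
          rw [← h1]
          simpa using this
        · have hwR : ‖w‖ = R := by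
            apply le_antisymm hw2
            by_contra hcon
            rw [not_le] at hcon
            exact hwU ⟨by simpa using hcon, by simpa using h1⟩
          refine (hC w).trans ?_
          rw [EReal.coe_le_coe_iff, hwR, Real.posLog_eq_log (by rw [abs_of_pos (by linarith)]; exact hR1.le)]
          linarith
      · exact ⟨by simpa using hRz.le, by simpa using hz.le⟩
    have hlog : 0 < Real.log ‖z‖ := Real.log_pos hz
    rw [Real.posLog_eq_log (by rw [abs_of_pos hz0]; exact hz.le)]
    apply le_of_forall_gt_imp_ge_of_dense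
    intro x hx
    induction x with
    | bot => exact absurd hx not_lt_bot
    | top => exact le_top
    | coe x =>
      rw [EReal.coe_lt_coe_iff] at hx
      refine (key ((x - Real.log ‖z‖) / Real.log ‖z‖) (div_pos (by linarith) hlog)).trans ?_
      rw [EReal.coe_le_coe_iff]
      apply le_of_eq
      field_simp
      ring

theorem extremal_sphere (z : ℂ) :
    extremal (sphere (0 : ℂ) 1) z = ((Real.posLog ‖z‖ : ℝ) : EReal) := by
  apply le_antisymm
  · apply sSup_le
    rintro x ⟨u, hu, rfl⟩
    exact competitor_le hu z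
  · apply le_sSup
    refine ⟨fun z => ((Real.posLog ‖z‖ : ℝ) : EReal), ⟨posLog_isSubharmonic, ⟨0, ?_⟩, ?_⟩, rfl⟩
    · intro z
      rw [add_zero]
    · intro w hw
      rw [mem_sphere_zero_iff_norm] at hw
      simp [hw]

end Pool.Agent.W2helper18.BM
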