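import Pool.Agent.W2helper18.BM.Nu

set_option autoImplicit false
open MeasureTheory Filter Topology Metric Real
open scoped Polynomial ComplexConjugate InnerProductSpace

namespace Pool.Agent.W2helper18.BM

section abstractpart
variable {E : Type*} [NormedAddCommGroup E] [InnerProductSpace ℂ E] [FiniteDimensional ℂ E]

/-- squared norm of a linear functional on a finite dimensional inner product space -/
noncomputable def nb (φ : E →ₗ[ℂ] ℂ) : ℝ := ‖LinearMap.toContinuousLinearMap φ‖ ^ 2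

lemma nb_nonneg (φ : E →ₗ[ℂ] ℂ) : 0 ≤ nb φ := by unfold nb; positivity

lemma le_nb (φ : E →ₗ[ℂ] ℂ) (p : E) : ‖φ p‖ ^ 2 ≤ nb φ * ‖p‖ ^ 2 := by
  unfold nb
  rw [← mul_pow]
  have := (LinearMap.toContinuousLinearMap φ).le_opNorm p
  rw [LinearMap.coe_toContinuousLinearMap'] at this
  gcongr

lemma nb_le (φ : E →ₗ[ℂ] ℂ) {C : ℝ} (hC : 0 ≤ C) (h : ∀ p, ‖φ p‖ ^ 2 ≤ C * ‖p‖ ^ 2) :
    nb φ ≤ C := by
  have h1 : ‖LinearMap.toContinuousLinearMap φ‖ ≤ Real.sqrt C := by
    apply ContinuousLinearMap.opNorm_le_bound _ (Real.sqrt_nonneg _)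
    intro p
    rw [LinearMap.coe_toContinuousLinearMap']
    have := h p
    rw [← Real.sqrt_sq (norm_nonneg (φ p)), ← Real.sqrt_sq (norm_nonneg p), ← Real.sqrt_mul hC]
    exact Real.sqrt_le_sqrt this
  unfold nb
  calc ‖LinearMap.toContinuousLinearMap φ‖ ^ 2 ≤ (Real.sqrt C) ^ 2 := by gcongr
    _ = C := Real.sq_sqrt hC

lemma nb_eq_sum {ι : Type*} [Fintype ι] (b : OrthonormalBasis ι ℂ E) (φ : E →ₗ[ℂ] ℂ) :
    ∑ i, ‖φ (b i)‖ ^ 2 = nb φ := by
  have : CompleteSpace E := FiniteDimensional.complete ℂ E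
  set v := (InnerProductSpace.toDual ℂ E).symm (LinearMap.toContinuousLinearMap φ) with hv
  have h1 : ∀ x, φ x = ⟪v, x⟫_ℂ := by
    intro x
    rw [hv, InnerProductSpace.toDual_symm_apply]
    rfl
  have h2 : nb φ = ‖v‖ ^ 2 := by
    unfold nb
    rw [hv, LinearIsometryEquiv.norm_map]
  rw [h2, ← b.sum_sq_norm_inner_left v]
  apply Finset.sum_congr rfl
  intro i _
  rw [h1]

end abstractpart

/-- Polynomials with the inner product of `L²(ν)`. -/
def PSp : Type := ℂ[X]

noncomputable instance : AddCommGroup PSp := inferInstanceAs (AddCommGroup ℂ[X])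
noncomputable instance : Module ℂ PSp := inferInstanceAs (Module ℂ ℂ[X])

/-- evaluation at `z` -/
noncomputable def evp (z : ℂ) : PSp →ₗ[ℂ] ℂ := Polynomial.leval (R := ℂ) z

lemma evp_apply (z : ℂ) (p : ℂ[X]) : evp z (show PSp from p) = p.eval z := rfl

lemma continuous_evp (p : PSp) : Continuous fun z => evp z p := by
  have : (fun z => evp z p) = fun z => Polynomial.eval z (show ℂ[X] from p) := rfl
  rw [this]
  exact Polynomial.continuous _

lemma integrable_conj_mul (p q : PSp) : Integrable (fun z => conj (evp z p) * evp z q) nu :=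
  integrable_nu_cont (((Complex.continuous_conj).comp (continuous_evp p)).mul (continuous_evp q))

/-- there are roots of unity of all dyadic orders -/
lemma root_infinite : Set.Infinite {ω : ℂ | ∃ j : ℕ, ω ^ (2 ^ j) = 1} := by
  have h : ∀ n : ℕ, ∃ s : Finset ℂ, (s : Set ℂ) ⊆ {ω : ℂ | ∃ j : ℕ, ω ^ (2 ^ j) = 1} ∧ n ≤ s.card := by
    intro n
    refine ⟨Polynomial.nthRootsFinset (2 ^ n) (1 : ℂ), ?_, ?_⟩
    · intro ω hω
      exact ⟨n, mem_roots.mp (Finset.mem_coe.mp hω)⟩
    · rw [(Complex.isPrimitiveRoot_exp (2 ^ n) (by positivity)).card_nthRootsFinset]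
      exact nat_le_two_pow_self n
  intro hfin
  obtain ⟨s, hs, hcard⟩ := h (hfin.toFinset.card + 1)
  have : s ⊆ hfin.toFinset := by
    intro x hx
    rw [Set.Finite.mem_toFinset]
    exact hs hx
  have := Finset.card_le_card this
  omega

lemma eq_zero_of_vanish {p : ℂ[X]} (h : ∀ (j : ℕ) (ω : ℂ), ω ^ (2 ^ j) = 1 → p.eval ω = 0) :
    p = 0 := by
  by_contra hp
  have h1 : Set.Finite {x | p.IsRoot x} := Polynomial.finite_setOfPred_isRoot hp
  apply root_infinite
  apply h1.subset
  rintro ω ⟨j, hj⟩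
  exact h j ω hj

lemma integral_pos_of_ne_zero {p : ℂ[X]} (hp : p ≠ 0) : 0 < ∫ z, ‖p.eval z‖ ^ 2 ∂nu := by
  have h0 : 0 ≤ ∫ z, ‖p.eval z‖ ^ 2 ∂nu := integral_nonneg fun _ => by positivity
  rcases h0.lt_or_eq with h | h
  · exact h
  · exfalso
    apply hp
    have h1 : Integrable (fun z => ‖p.eval z‖ ^ 2) nu :=
      integrable_nu_cont (by fun_prop)
    have h2 := (integral_eq_zero_iff_of_nonneg (fun _ => by positivity) h1).mp h.symm
    apply eq_zero_of_vanish
    intro j ω hω
    have h3 := of_nu_ae h2 hω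
    simpa using h3

lemma int_self (p : PSp) : ∫ z, conj (evp z p) * evp z p ∂nu =
    ((∫ z, ‖evp z p‖ ^ 2 ∂nu : ℝ) : ℂ) := by
  rw [← integral_complex_ofReal]
  congr 1
  funext z
  rw [← Complex.normSq_eq_conj_mul_self, Complex.normSq_eq_norm_sq]

/-- The inner product of `L²(ν)` on polynomials. -/
@[instance_reducible]
noncomputable def core : InnerProductSpace.Core ℂ PSp where
  inner p q := ∫ z, conj (evp z p) * evp z q ∂nu
  conj_inner_symm p q := by
    rw [← integral_conj]
    congr 1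
    funext z
    simp [mul_comm]
  re_inner_nonneg p := by
    rw [int_self]
    simp only [RCLike.re_to_complex, Complex.ofReal_re]
    exact integral_nonneg fun _ => by positivity
  add_left p q r := by
    rw [← integral_add (integrable_conj_mul _ _) (integrable_conj_mul _ _)]
    congr 1
    funext z
    rw [map_add, map_add, add_mul]
  smul_left p q r := by
    rw [← integral_const_mul]
    congr 1
    funext z
    rw [map_smul, smul_eq_mul, map_mul, mul_assoc]
  definite p h := by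
    rw [int_self] at h
    by_contra hp
    have := integral_pos_of_ne_zero (p := p) hp
    have h2 : (∫ z, ‖evp z p‖ ^ 2 ∂nu) = 0 := by exact_mod_cast h
    rw [show (∫ z, ‖evp z p‖ ^ 2 ∂nu) = ∫ z, ‖Polynomial.eval z (show ℂ[X] from p)‖ ^ 2 ∂nu from rfl] at h2
    exact this.ne' h2

noncomputable instance : NormedAddCommGroup PSp := core.toNormedAddCommGroup
noncomputable instance : InnerProductSpace ℂ PSp := InnerProductSpace.ofCore core.toCore

lemma inner_def (p q : PSp) : ⟪p, q⟫_ℂ = ∫ z, conj (evp z p) * evp z q ∂nu := rfl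

lemma normSq_eq (p : PSp) : ‖p‖ ^ 2 = ∫ z, ‖evp z p‖ ^ 2 ∂nu := by
  have h2 := inner_self_eq_norm_sq (𝕜 := ℂ) p
  rw [inner_def, int_self, RCLike.re_to_complex, Complex.ofReal_re] at h2
  exact h2.symm


/-- the space `P_k` -/
noncomputable def Pk (k : ℕ) : Submodule ℂ PSp := Polynomial.degreeLT ℂ (k + 1)

lemma mem_Pk {k : ℕ} {p : ℂ[X]} : (show PSp from p) ∈ Pk k ↔ p.natDegree ≤ k := by
  have h1 : (show PSp from p) ∈ Pk k ↔
      p.degree < ((k + 1 : ℕ) : WithBot ℕ) := Polynomial.mem_degreeLT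
  refine h1.trans ?_
  rw [Polynomial.degree_lt_iff_coeff_zero, Polynomial.natDegree_le_iff_coeff_eq_zero]
  constructor
  · intro h N hN; exact h N (by omega)
  · intro h m hm; exact h m (by omega)

noncomputable def PkEquiv (k : ℕ) : Pk k ≃ₗ[ℂ] (Fin (k + 1) → ℂ) := Polynomial.degreeLTEquiv ℂ (k + 1)

instance (k : ℕ) : FiniteDimensional ℂ (Pk k) :=
  LinearEquiv.finiteDimensional (PkEquiv k).symm

lemma finrank_Pk (k : ℕ) : Module.finrank ℂ (Pk k) = k + 1 := by
  rw [LinearEquiv.finrank_eq (PkEquiv k)]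
  simp

/-- evaluation on `P_k` -/
noncomputable def evk (k : ℕ) (z : ℂ) : Pk k →ₗ[ℂ] ℂ := (evp z).comp (Pk k).subtype

lemma evk_apply (k : ℕ) (z : ℂ) (p : Pk k) : evk k z p = evp z p := rfl

/-- An orthonormal family as in `IsONB` is an orthonormal basis of `P_k`. -/
lemma exists_basis_of_isONB {k : ℕ} {e : Fin (k + 1) → ℂ[X]} (he : IsONB nu k e) :
    ∃ b : OrthonormalBasis (Fin (k + 1)) ℂ (Pk k), ∀ i z, evk k z (b i) = (e i).eval z := by
  obtain ⟨hdeg, hon⟩ := he
  set v : Fin (k + 1) → Pk k := fun i => ⟨(show PSp from e i), mem_Pk.mpr (hdeg i)⟩ with hv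
  have hvon : Orthonormal ℂ v := by
    rw [orthonormal_iff_ite]
    intro i j
    have h1 : ⟪v i, v j⟫_ℂ = ∫ z, conj ((e i).eval z) * (e j).eval z ∂nu := rfl
    rw [h1]
    have h2 := hon j i
    have h3 : (fun z => conj ((e i).eval z) * (e j).eval z) =
        fun z => (e j).eval z * conj ((e i).eval z) := by
      funext z; rw [mul_comm]
    rw [h3, h2]
    simp [eq_comm]
  have hcard : Fintype.card (Fin (k + 1)) = Module.finrank ℂ (Pk k) := by
    rw [finrank_Pk]; simp
  have hspan : ⊤ ≤ Submodule.span ℂ (Set.range v) := by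
    have := (basisOfOrthonormalOfCardEqFinrank hvon hcard).span_eq
    rw [coe_basisOfOrthonormalOfCardEqFinrank] at this
    exact this.ge
  refine ⟨OrthonormalBasis.mk hvon hspan, fun i z => ?_⟩
  rw [OrthonormalBasis.coe_mk]
  rfl

lemma exists_isONB (k : ℕ) : ∃ e : Fin (k + 1) → ℂ[X], IsONB nu k e := by
  set b := (stdOrthonormalBasis ℂ (Pk k)).reindex (finCongr (finrank_Pk k)) with hb
  refine ⟨fun i => (show PSp from b i), fun i => ?_, fun i j => ?_⟩
  · exact mem_Pk.mp (b i).2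
  · have h1 := (orthonormal_iff_ite.mp b.orthonormal) j i
    have h2 : ⟪b j, b i⟫_ℂ = ∫ z, conj (evp z (b j)) * evp z (b i) ∂nu := rfl
    rw [h2] at h1
    have h3 : (fun z => conj (evp z (b j)) * evp z (b i)) =
        fun z => evp z (b i) * conj (evp z (b j)) := by
      funext z; rw [mul_comm]
    rw [h3] at h1
    rw [show (if i = j then (1 : ℂ) else 0) = if j = i then 1 else 0 by simp [eq_comm], ← h1]
    rfl

/-- Any Bergman function of `ν` is given by the norm of the evaluation functional. -/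
lemma bergman_eq {k : ℕ} {B : ℂ → ℝ} (hB : IsBergman nu k B) (z : ℂ) : B z = nb (evk k z) := by
  obtain ⟨e, he, hBe⟩ := hB
  obtain ⟨b, hb⟩ := exists_basis_of_isONB he
  rw [hBe z, ← nb_eq_sum b]
  simp only [hb]

lemma exists_bergman (k : ℕ) : ∃ B, IsBergman nu k B := by
  obtain ⟨e, he⟩ := exists_isONB k
  exact ⟨_, e, he, fun _ => rfl⟩

end Pool.Agent.W2helper18.BM
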