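import Pool.Agent.W2helper18.BM.Kern

set_option autoImplicit false
open MeasureTheory Filter Topology Metric Real
open scoped Polynomial ComplexConjugate InnerProductSpace

namespace Pool.Agent.W2helper18.BM

/-- values at the `2^i`-th roots of unity -/
noncomputable def valMap (k i : ℕ) :
    Pk k →ₗ[ℂ] ((Polynomial.nthRootsFinset (2 ^ i) (1 : ℂ)) → ℂ) :=
  LinearMap.pi fun ω => evk k ω

/-- polynomials in `P_k` vanishing at the `2^i`-th roots of unity -/
noncomputable def Wk (k i : ℕ) : Submodule ℂ PSp :=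
  (LinearMap.ker (valMap k i)).map (Pk k).subtype

lemma mem_Wk {k i : ℕ} {p : PSp} :
    p ∈ Wk k i ↔ p ∈ Pk k ∧ ∀ ω : ℂ, ω ^ (2 ^ i) = 1 → evp ω p = 0 := by
  unfold Wk
  rw [Submodule.mem_map]
  constructor
  · rintro ⟨q, hq, rfl⟩
    refine ⟨q.2, fun ω hω => ?_⟩
    rw [LinearMap.mem_ker] at hq
    have := congrFun hq ⟨ω, mem_roots.mpr hω⟩
    exact this
  · rintro ⟨hp, h⟩
    refine ⟨⟨p, hp⟩, ?_, rfl⟩
    rw [LinearMap.mem_ker]
    funext ω
    exact h ω (mem_roots.mp ω.2)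

instance (k i : ℕ) : FiniteDimensional ℂ (Wk k i) := by
  unfold Wk
  infer_instance

lemma finrank_Wk (k i : ℕ) : k + 1 ≤ Module.finrank ℂ (Wk k i) + 2 ^ i := by
  have h1 := LinearMap.finrank_range_add_finrank_ker (valMap k i)
  rw [finrank_Pk] at h1
  have h2 := Submodule.finrank_le (LinearMap.range (valMap k i))
  rw [Module.finrank_fintype_fun_eq_card, Fintype.card_coe] at h2
  have h3 := card_roots_le i
  have h4 : Module.finrank ℂ (Wk k i) = Module.finrank ℂ (LinearMap.ker (valMap k i)) :=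
    Submodule.finrank_map_subtype_eq _ _
  omega

/-- evaluation on `W` -/
noncomputable def evw (k i : ℕ) (z : ℂ) : Wk k i →ₗ[ℂ] ℂ := (evp z).comp (Wk k i).subtype

lemma evw_apply (k i : ℕ) (z : ℂ) (p : Wk k i) : evw k i z p = evp z p := rfl

/-- general facts for a finite dimensional space mapped isometrically into the polynomials -/
lemma cont_and_integral {E : Type*} [NormedAddCommGroup E] [InnerProductSpace ℂ E]
    [FiniteDimensional ℂ E] (J : E →ₗ[ℂ] PSp) (hJ : ∀ p, ‖J p‖ = ‖p‖)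
    {ev : ℂ → (E →ₗ[ℂ] ℂ)} (hev : ∀ z p, ev z p = evp z (J p)) :
    Continuous (fun z => nb (ev z)) ∧ ∫ z, nb (ev z) ∂nu = Module.finrank ℂ E := by
  set b := stdOrthonormalBasis ℂ E with hb
  have h1 : (fun z => nb (ev z)) = fun z => ∑ i, ‖evp z (J (b i))‖ ^ 2 := by
    funext z
    rw [← nb_eq_sum b]
    simp only [hev]
  rw [h1]
  have hc : ∀ i, Continuous fun z => ‖evp z (J (b i))‖ ^ 2 := fun i =>
    (continuous_evp _).norm.pow 2
  refine ⟨continuous_finsetSum _ fun i _ => hc i, ?_⟩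
  rw [integral_finsetSum _ (fun i _ => integrable_nu_cont (hc i))]
  have h2 : ∀ i, ∫ z, ‖evp z (J (b i))‖ ^ 2 ∂nu = 1 := by
    intro i
    rw [← normSq_eq, hJ, b.orthonormal.1 i]
    norm_num
  simp [h2]

lemma cont_bk (k : ℕ) : Continuous (fun z => nb (evk k z)) :=
  (cont_and_integral (Pk k).subtype (fun _ => rfl) (fun _ _ => rfl)).1

lemma integral_bk (k : ℕ) : ∫ z, nb (evk k z) ∂nu = k + 1 := by
  rw [(cont_and_integral (Pk k).subtype (fun _ => rfl) (ev := evk k) (fun _ _ => rfl)).2,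
    finrank_Pk]
  push_cast
  ring

lemma cont_bw (k i : ℕ) : Continuous (fun z => nb (evw k i z)) :=
  (cont_and_integral (Wk k i).subtype (fun _ => rfl) (fun _ _ => rfl)).1

lemma integral_bw (k i : ℕ) : ∫ z, nb (evw k i z) ∂nu = Module.finrank ℂ (Wk k i) :=
  (cont_and_integral (Wk k i).subtype (fun _ => rfl) (ev := evw k i) (fun _ _ => rfl)).2

lemma bw_le_bk (k i : ℕ) (z : ℂ) : nb (evw k i z) ≤ nb (evk k z) := by
  apply nb_le _ (nb_nonneg _)
  intro p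
  exact le_nb (evk k z) ⟨p, (mem_Wk.mp p.2).1⟩

lemma bw_root {k i : ℕ} {ω : ℂ} (hω : ω ^ (2 ^ i) = 1) : nb (evw k i ω) = 0 := by
  apply le_antisymm _ (nb_nonneg _)
  apply nb_le _ le_rfl
  intro p
  have := (mem_Wk.mp p.2).2 ω hω
  rw [evw_apply, this]
  simp

/-- rotated polynomial -/
lemma exists_rot {k i : ℕ} {ζ : ℂ} (hζ : ζ ^ (2 ^ i) = 1) (p : Wk k i) :
    ∃ q : Wk k i, (∀ z, evw k i z q = evw k i (ζ * z) p) ∧ ‖q‖ = ‖p‖ := by
  set p0 : ℂ[X] := (show ℂ[X] from (p : PSp)) with hp0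
  set q0 : ℂ[X] := p0.comp (Polynomial.C ζ * Polynomial.X) with hq0
  have hdeg : q0.natDegree ≤ k := by
    have h1 : q0.natDegree ≤ p0.natDegree * (Polynomial.C ζ * Polynomial.X).natDegree :=
      Polynomial.natDegree_comp_le
    have h2 : (Polynomial.C ζ * Polynomial.X : ℂ[X]).natDegree ≤ 1 := by
      compute_degree
    have h3 : p0.natDegree ≤ k := mem_Pk.mp (mem_Wk.mp p.2).1
    calc q0.natDegree ≤ p0.natDegree * (Polynomial.C ζ * Polynomial.X).natDegree := h1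
      _ ≤ p0.natDegree * 1 := by gcongr
      _ ≤ k := by omega
  have hev : ∀ z, q0.eval z = p0.eval (ζ * z) := by
    intro z
    rw [hq0, Polynomial.eval_comp]
    simp
  set q1 : PSp := (show PSp from q0) with hq1
  have hq1e : ∀ z, evp z q1 = evw k i (ζ * z) p := fun z => hev z
  have hq1m : q1 ∈ Wk k i := by
    rw [mem_Wk]
    refine ⟨mem_Pk.mpr hdeg, ?_⟩
    intro ω hω
    rw [hq1e]
    exact (mem_Wk.mp p.2).2 _ (by rw [mul_pow, hζ, hω, one_mul])
  refine ⟨⟨q1, hq1m⟩, hq1e, ?_⟩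
  have hn : ‖((⟨q1, hq1m⟩ : Wk k i))‖ ^ 2 = ‖p‖ ^ 2 := by
    have e1 : ‖((⟨q1, hq1m⟩ : Wk k i))‖ ^ 2 = ∫ z, ‖evw k i (ζ * z) p‖ ^ 2 ∂nu := by
      have : ‖((⟨q1, hq1m⟩ : Wk k i))‖ ^ 2 = ‖q1‖ ^ 2 := rfl
      rw [this, normSq_eq]
      simp only [hq1e]
    have e2 : ‖p‖ ^ 2 = ∫ z, ‖evw k i z p‖ ^ 2 ∂nu := by
      have : ‖p‖ ^ 2 = ‖(p : PSp)‖ ^ 2 := rfl
      rw [this, normSq_eq]
      rfl
    rw [e1, e2]
    refine integral_rot (E := ℝ) (f := fun z => ‖evw k i z p‖ ^ 2) ?_ (i := i) ?_ hζ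
    · exact (continuous_evp _).norm.pow 2
    · intro ω hω
      have := (mem_Wk.mp p.2).2 ω hω
      rw [evw_apply, this]
      simp
  have h3 := Real.sqrt_sq (norm_nonneg (⟨q1, hq1m⟩ : Wk k i))
  have h4 := Real.sqrt_sq (norm_nonneg p)
  rw [← h3, ← h4, hn]

lemma bw_rot_le {k i : ℕ} {ζ : ℂ} (hζ : ζ ^ (2 ^ i) = 1) (z : ℂ) :
    nb (evw k i (ζ * z)) ≤ nb (evw k i z) := by
  apply nb_le _ (nb_nonneg _)
  intro p
  obtain ⟨q, hq, hqn⟩ := exists_rot hζ p
  rw [← hq, ← hqn]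
  exact le_nb _ q

lemma bw_rot {k i : ℕ} {ζ : ℂ} (hζ : ζ ^ (2 ^ i) = 1) (z : ℂ) :
    nb (evw k i (ζ * z)) = nb (evw k i z) := by
  apply le_antisymm (bw_rot_le hζ z)
  have hζ0 : ζ ≠ 0 := by
    rintro rfl
    rw [zero_pow (by positivity)] at hζ
    exact zero_ne_one hζ
  have h1 := bw_rot_le (k := k) (i := i) (ζ := ζ⁻¹) (by rw [inv_pow, hζ, inv_one]) (ζ * z)
  rwa [inv_mul_cancel_left₀ hζ0] at h1

/-- The moments of the part of the Bergman measure coming from `W` vanish. -/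
lemma moment_w {k i m : ℕ} (hm : 0 < m) (hmi : m < 2 ^ i) :
    ∫ z, z ^ m * (nb (evw k i z) : ℂ) ∂nu = 0 := by
  set ζ : ℂ := Complex.exp (2 * π * Complex.I / ((2 ^ i : ℕ) : ℂ)) with hζdef
  have hprim : IsPrimitiveRoot ζ (2 ^ i) := Complex.isPrimitiveRoot_exp (2 ^ i) (by positivity)
  have hζ : ζ ^ (2 ^ i) = 1 := hprim.pow_eq_one
  have hζm : ζ ^ m ≠ 1 := hprim.pow_ne_one_of_pos_of_lt hm.ne' hmi
  have h1 := integral_rot (E := ℂ) (f := fun z => z ^ m * (nb (evw k i z) : ℂ))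
    ((continuous_pow m).mul (Complex.continuous_ofReal.comp (cont_bw k i))) (i := i)
    (fun ω hω => by rw [bw_root hω]; simp) hζ
  have h2 : ∀ z, (ζ * z) ^ m * (nb (evw k i (ζ * z)) : ℂ) =
      ζ ^ m * (z ^ m * (nb (evw k i z) : ℂ)) := by
    intro z
    rw [bw_rot hζ, mul_pow, mul_assoc]
  simp only [h2] at h1
  rw [integral_const_mul] at h1
  have h3 : (ζ ^ m - 1) * ∫ z, z ^ m * (nb (evw k i z) : ℂ) ∂nu = 0 := by
    rw [sub_mul, h1, one_mul, sub_self]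
  rcases mul_eq_zero.mp h3 with h | h
  · exact absurd (sub_eq_zero.mp h) hζm
  · exact h

/-- Bound of the moments of the Bergman measure, uniform in `k`. -/
lemma moment_bound {k i m : ℕ} (hm : 0 < m) (hmi : m < 2 ^ i) :
    ‖∫ z, z ^ m * (nb (evk k z) : ℂ) ∂nu‖ ≤ 2 ^ i := by
  have hc1 : Continuous fun z : ℂ => z ^ m * (nb (evk k z) : ℂ) :=
    (continuous_pow m).mul (Complex.continuous_ofReal.comp (cont_bk k))
  have hc2 : Continuous fun z : ℂ => z ^ m * (nb (evw k i z) : ℂ) :=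
    (continuous_pow m).mul (Complex.continuous_ofReal.comp (cont_bw k i))
  have h1 : ∫ z, z ^ m * (nb (evk k z) : ℂ) ∂nu =
      ∫ z, (z ^ m * (nb (evk k z) : ℂ) - z ^ m * (nb (evw k i z) : ℂ)) ∂nu := by
    rw [integral_sub (integrable_nu_cont hc1) (integrable_nu_cont hc2), moment_w hm hmi, sub_zero]
  rw [h1]
  calc ‖∫ z, (z ^ m * (nb (evk k z) : ℂ) - z ^ m * (nb (evw k i z) : ℂ)) ∂nu‖
      ≤ ∫ z, (nb (evk k z) - nb (evw k i z)) ∂nu := by
        apply norm_integral_le_of_norm_le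
        · exact integrable_nu_cont ((cont_bk k).sub (cont_bw k i))
        · filter_upwards [nu_norm] with z hz
          rw [← mul_sub, norm_mul, norm_pow, hz, one_pow, one_mul, ← Complex.ofReal_sub,
            Complex.norm_real, Real.norm_of_nonneg]
          have := bw_le_bk k i z
          linarith
    _ = (k + 1) - Module.finrank ℂ (Wk k i) := by
        rw [integral_sub (integrable_nu_cont (cont_bk k)) (integrable_nu_cont (cont_bw k i)),
          integral_bk, integral_bw]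
    _ ≤ 2 ^ i := by
        have := finrank_Wk k i
        have h2 : ((k + 1 : ℕ) : ℝ) ≤ ((Module.finrank ℂ (Wk k i) + 2 ^ i : ℕ) : ℝ) := by
          exact_mod_cast this
        push_cast at h2
        linarith

/-- lower bound for the Bergman function by a single polynomial -/
lemma le_bk {k : ℕ} {p : ℂ[X]} (hp : p.natDegree ≤ k) (z : ℂ) :
    ‖p.eval z‖ ^ 2 ≤ nb (evk k z) * ∫ w, ‖p.eval w‖ ^ 2 ∂nu := by
  have h1 := le_nb (evk k z) ⟨(show PSp from p), mem_Pk.mpr hp⟩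
  have h2 : ‖(⟨(show PSp from p), mem_Pk.mpr hp⟩ : Pk k)‖ ^ 2 = ∫ w, ‖p.eval w‖ ^ 2 ∂nu :=
    normSq_eq _
  rw [h2] at h1
  exact h1

end Pool.Agent.W2helper18.BM
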