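import Pool.Agent.W2helper18.BM.Defs

set_option autoImplicit false
open MeasureTheory Filter Topology Metric Real

namespace Pool.Agent.W2helper18.BM

/-- The weights `32^{-2^j}`. -/
noncomputable def eps (j : ℕ) : ℝ := (1 / 32 : ℝ) ^ (2 ^ j)

/-- The sum of the unit point masses at the `2^j`-th roots of unity. -/
noncomputable def lam (j : ℕ) : Measure ℂ :=
  ∑ ω ∈ Polynomial.nthRootsFinset (2 ^ j) (1 : ℂ), Measure.dirac ω

/-- The measure `ν = ∑_j 32^{-2^j} ∑_{ω^{2^j} = 1} δ_ω`. -/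
noncomputable def nu : Measure ℂ := Measure.sum fun j => ENNReal.ofReal (eps j) • lam j

lemma eps_pos (j : ℕ) : 0 < eps j := by unfold eps; positivity

lemma mem_roots {j : ℕ} {ω : ℂ} : ω ∈ Polynomial.nthRootsFinset (2 ^ j) (1 : ℂ) ↔ ω ^ (2 ^ j) = 1 :=
  Polynomial.mem_nthRootsFinset (by positivity) 1

lemma card_roots_le (j : ℕ) : (Polynomial.nthRootsFinset (2 ^ j) (1 : ℂ)).card ≤ 2 ^ j := by
  classical
  unfold Polynomial.nthRootsFinset
  exact (Multiset.toFinset_card_le _).trans (Polynomial.card_nthRoots _ _)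

lemma norm_root {j : ℕ} {ω : ℂ} (h : ω ^ (2 ^ j) = 1) : ‖ω‖ = 1 :=
  Complex.norm_eq_one_of_pow_eq_one h (by positivity)

lemma nat_le_two_pow_self (j : ℕ) : (j : ℕ) ≤ 2 ^ j := Nat.lt_two_pow_self.le

lemma eps_mul_le (j : ℕ) : eps j * 2 ^ j ≤ (1 / 16 : ℝ) ^ (2 ^ j) := by
  have h1 : (2 : ℝ) ^ j ≤ 2 ^ (2 ^ j) := pow_le_pow_right₀ (by norm_num) (nat_le_two_pow_self j)
  calc eps j * 2 ^ j ≤ (1 / 32 : ℝ) ^ (2 ^ j) * 2 ^ (2 ^ j) := by
        unfold eps; gcongr
    _ = (1 / 16 : ℝ) ^ (2 ^ j) := by rw [← mul_pow]; norm_num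

lemma summable_eps : Summable fun j => eps j * 2 ^ j := by
  refine Summable.of_nonneg_of_le (fun j => by have := eps_pos j; positivity) (fun j => ?_)
    (summable_geometric_of_lt_one (r := (1 / 16 : ℝ)) (by norm_num) (by norm_num))
  refine (eps_mul_le j).trans ?_
  exact pow_le_pow_of_le_one (by norm_num) (by norm_num) (nat_le_two_pow_self j)

lemma lam_univ (j : ℕ) : lam j Set.univ ≤ 2 ^ j := by
  unfold lam
  rw [Measure.finsetSum_apply]
  simp only [measure_univ, Finset.sum_const, nsmul_eq_mul, mul_one]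
  have := card_roots_le j
  exact_mod_cast this

instance : IsFiniteMeasure nu := by
  constructor
  unfold nu
  rw [Measure.sum_apply _ MeasurableSet.univ]
  have h1 : ∀ j, (ENNReal.ofReal (eps j) • lam j) Set.univ ≤ ENNReal.ofReal (eps j * 2 ^ j) := by
    intro j
    rw [Measure.smul_apply, smul_eq_mul, ENNReal.ofReal_mul (eps_pos j).le]
    gcongr
    refine (lam_univ j).trans ?_
    rw [ENNReal.ofReal_pow (by norm_num)]
    simp
  refine lt_of_le_of_lt (ENNReal.tsum_le_tsum h1) ?_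
  rw [← ENNReal.ofReal_tsum_of_nonneg (fun j => by have := eps_pos j; positivity) summable_eps]
  exact ENNReal.ofReal_lt_top

lemma nu_ae {P : ℂ → Prop} (h : ∀ (j : ℕ) (ω : ℂ), ω ^ (2 ^ j) = 1 → P ω) : ∀ᵐ z ∂nu, P z := by
  unfold nu
  rw [Measure.ae_sum_iff]
  intro j
  apply Measure.ae_smul_measure
  unfold lam
  rw [← Measure.sum_coe_finset, Measure.ae_sum_iff]
  intro ω
  rw [ae_dirac_eq]
  exact h j ω (mem_roots.mp ω.2)

lemma nu_norm : ∀ᵐ z ∂nu, ‖z‖ = 1 := nu_ae fun _ _ h => norm_root h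

lemma of_nu_ae {P : ℂ → Prop} (h : ∀ᵐ z ∂nu, P z) {j : ℕ} {ω : ℂ} (hω : ω ^ (2 ^ j) = 1) :
    P ω := by
  unfold nu at h
  rw [Measure.ae_sum_iff] at h
  have h1 := h j
  have h2 : ∀ᵐ z ∂(lam j), P z := by
    rwa [Measure.ae_ennreal_smul_measure_iff] at h1
    exact (ENNReal.ofReal_pos.mpr (eps_pos j)).ne'
  unfold lam at h2
  rw [← Measure.sum_coe_finset, Measure.ae_sum_iff] at h2
  have h3 := h2 ⟨ω, mem_roots.mpr hω⟩
  rw [ae_dirac_eq] at h3
  exact h3

section integrals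
variable {E : Type*} [NormedAddCommGroup E] [NormedSpace ℝ E] [CompleteSpace E]

lemma integrable_nu {f : ℂ → E} (hf : AEStronglyMeasurable f nu) {C : ℝ}
    (hC : ∀ z : ℂ, ‖z‖ = 1 → ‖f z‖ ≤ C) : Integrable f nu := by
  refine Integrable.of_bound hf C ?_
  filter_upwards [nu_norm] with z hz using hC z hz

lemma integrable_nu_cont {f : ℂ → E} (hf : Continuous f)  : Integrable f nu := by
  obtain ⟨C, hC⟩ := (isCompact_sphere (0 : ℂ) 1).exists_bound_of_continuousOn hf.continuousOn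
  have h1 : nu.restrict (sphere (0 : ℂ) 1) = nu := by
    rw [Measure.restrict_eq_self_of_ae_mem]
    filter_upwards [nu_norm] with z hz
    rwa [mem_sphere_zero_iff_norm]
  rw [← h1]
  exact hf.continuousOn.integrableOn_compact (isCompact_sphere (0 : ℂ) 1)

lemma integral_lam (j : ℕ) (f : ℂ → E) :
    ∫ z, f z ∂(lam j) = ∑ ω ∈ Polynomial.nthRootsFinset (2 ^ j) (1 : ℂ), f ω := by
  unfold lam
  rw [integral_finsetSum_measure]
  · simp
  · intro i _
    exact integrable_dirac (by simp)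

lemma hasSum_nu {f : ℂ → E} (hf : Integrable f nu) :
    HasSum (fun j => eps j • ∑ ω ∈ Polynomial.nthRootsFinset (2 ^ j) (1 : ℂ), f ω)
      (∫ z, f z ∂nu) := by
  have h1 := hasSum_integral_measure (f := f) (μ := fun j => ENNReal.ofReal (eps j) • lam j) hf
  have h2 : (fun j => ∫ z, f z ∂(ENNReal.ofReal (eps j) • lam j)) =
      fun j => eps j • ∑ ω ∈ Polynomial.nthRootsFinset (2 ^ j) (1 : ℂ), f ω := by
    funext j
    rw [integral_smul_measure, integral_lam, ENNReal.toReal_ofReal (eps_pos j).le]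
  rw [h2] at h1
  exact h1

/-- Rotation invariance on functions that vanish on the `2^i`-th roots of unity. -/
lemma integral_rot {f : ℂ → E} (hf : Continuous f) {i : ℕ}
    (h0 : ∀ ω : ℂ, ω ^ (2 ^ i) = 1 → f ω = 0) {ζ : ℂ} (hζ : ζ ^ (2 ^ i) = 1) :
    ∫ z, f (ζ * z) ∂nu = ∫ z, f z ∂nu := by
  have h1 := hasSum_nu (integrable_nu_cont hf)
  have h2 := hasSum_nu (integrable_nu_cont (hf.comp (continuous_const_mul ζ)))
  have h3 : (fun j => eps j • ∑ ω ∈ Polynomial.nthRootsFinset (2 ^ j) (1 : ℂ),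
      (f ∘ fun b => ζ * b) ω) =
      fun j => eps j • ∑ ω ∈ Polynomial.nthRootsFinset (2 ^ j) (1 : ℂ), f ω := by
    funext j
    congr 1
    by_cases hj : j ≤ i
    · have hdvd : ∀ ω : ℂ, ω ^ (2 ^ j) = 1 → ω ^ (2 ^ i) = 1 := by
        intro ω hω
        obtain ⟨c, hc⟩ := pow_dvd_pow 2 hj
        rw [hc, pow_mul, hω, one_pow]
      rw [Finset.sum_eq_zero, Finset.sum_eq_zero]
      · intro ω hω
        exact h0 ω (hdvd ω (mem_roots.mp hω))
      · intro ω hω
        simp only [Function.comp]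
        apply h0
        rw [mul_pow, hζ, hdvd ω (mem_roots.mp hω), one_mul]
    · rw [not_le] at hj
      have hζj : ζ ^ (2 ^ j) = 1 := by
        obtain ⟨c, hc⟩ := pow_dvd_pow 2 hj.le
        rw [hc, pow_mul, hζ, one_pow]
      have hζ0 : ζ ≠ 0 := by
        rintro rfl
        rw [zero_pow (by positivity)] at hζ
        exact zero_ne_one hζ
      refine Finset.sum_bij' (fun ω _ => ζ * ω) (fun ω _ => ζ⁻¹ * ω) ?_ ?_ ?_ ?_ ?_
      · intro ω hω
        rw [mem_roots, mul_pow, hζj, mem_roots.mp hω, one_mul]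
      · intro ω hω
        rw [mem_roots, mul_pow, inv_pow, hζj, mem_roots.mp hω, inv_one, one_mul]
      · intro ω _
        rw [inv_mul_cancel_left₀ hζ0]
      · intro ω _
        rw [mul_inv_cancel_left₀ hζ0]
      · intro ω _
        rfl
  rw [h3] at h2
  exact h2.unique h1

end integrals

/-- The polynomial `z^{2^j} - 1` is very small in `L²(ν)`. -/
lemma small_norm (j : ℕ) :
    ∫ z : ℂ, ‖z ^ (2 ^ j) - 1‖ ^ 2 ∂nu ≤ 8 * (1 / 16 : ℝ) ^ (2 * 2 ^ j) := by
  have h1 := hasSum_nu (E := ℝ) (f := fun z : ℂ => ‖z ^ (2 ^ j) - 1‖ ^ 2)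
    (integrable_nu_cont (by fun_prop))
  set N : ℕ := 2 ^ j with hN
  -- compare with a geometric series
  have hgeo : HasSum (fun i : ℕ => 4 * (1 / 16 : ℝ) ^ (2 * N) * (1 / 16 : ℝ) ^ i)
      (4 * (1 / 16 : ℝ) ^ (2 * N) * (1 - 1 / 16)⁻¹) :=
    (hasSum_geometric_of_lt_one (by norm_num) (by norm_num)).mul_left _
  have hz : ∀ i ∈ Finset.range (j + 1), eps i • ∑ ω ∈ Polynomial.nthRootsFinset (2 ^ i) (1 : ℂ),
      ‖ω ^ N - 1‖ ^ 2 = 0 := by
    intro i hi
    rw [Finset.mem_range] at hi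
    rw [Finset.sum_eq_zero, smul_zero]
    intro ω hω
    obtain ⟨c, hc⟩ := pow_dvd_pow 2 (Nat.lt_succ_iff.mp hi)
    rw [hN, hc, pow_mul, mem_roots.mp hω, one_pow, sub_self, norm_zero]
    norm_num
  have h2 := (hasSum_nat_add_iff' (j + 1)).mpr h1
  rw [Finset.sum_eq_zero hz, sub_zero] at h2
  have h3 := hasSum_le (fun i => ?_) h2 hgeo
  · refine h3.trans ?_
    have : 0 < (1 / 16 : ℝ) ^ (2 * N) := by positivity
    nlinarith
  · -- termwise bound
    have e1 : ∑ ω ∈ Polynomial.nthRootsFinset (2 ^ (i + (j + 1))) (1 : ℂ), ‖ω ^ N - 1‖ ^ 2 ≤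
        4 * 2 ^ (i + (j + 1)) := by
      calc ∑ ω ∈ Polynomial.nthRootsFinset (2 ^ (i + (j + 1))) (1 : ℂ), ‖ω ^ N - 1‖ ^ 2
          ≤ ∑ ω ∈ Polynomial.nthRootsFinset (2 ^ (i + (j + 1))) (1 : ℂ), (4 : ℝ) := by
            apply Finset.sum_le_sum
            intro ω hω
            have hn : ‖ω ^ N - 1‖ ≤ 2 := by
              calc ‖ω ^ N - 1‖ ≤ ‖ω ^ N‖ + ‖(1 : ℂ)‖ := norm_sub_le _ _
                _ = 2 := by rw [norm_pow, norm_root (mem_roots.mp hω)]; norm_num
            nlinarith [norm_nonneg (ω ^ N - 1)]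
        _ = (Polynomial.nthRootsFinset (2 ^ (i + (j + 1))) (1 : ℂ)).card * 4 := by
            rw [Finset.sum_const, nsmul_eq_mul]
        _ ≤ 2 ^ (i + (j + 1)) * 4 := by
            have := card_roots_le (i + (j + 1))
            gcongr
            exact_mod_cast this
        _ = _ := by ring
    have e2 := eps_mul_le (i + (j + 1))
    have e3 : (1 / 16 : ℝ) ^ (2 ^ (i + (j + 1))) ≤ (1 / 16 : ℝ) ^ (2 * N + i) := by
      apply pow_le_pow_of_le_one (by norm_num) (by norm_num)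
      have : i + 1 ≤ 2 ^ i := Nat.lt_two_pow_self
      have hN1 : 1 ≤ N := Nat.one_le_two_pow
      rw [pow_add, pow_succ, ← hN]
      nlinarith
    rw [smul_eq_mul]
    calc eps (i + (j + 1)) * ∑ ω ∈ Polynomial.nthRootsFinset (2 ^ (i + (j + 1))) (1 : ℂ),
          ‖ω ^ N - 1‖ ^ 2 ≤ eps (i + (j + 1)) * (4 * 2 ^ (i + (j + 1))) := by
          have := (eps_pos (i + (j + 1))).le
          gcongr
      _ = 4 * (eps (i + (j + 1)) * 2 ^ (i + (j + 1))) := by ring
      _ ≤ 4 * (1 / 16 : ℝ) ^ (2 * N + i) := by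
          have := e2.trans e3
          linarith
      _ = _ := by rw [pow_add]; ring

end Pool.Agent.W2helper18.BM
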